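import Pool.Agent.V5helper30.WL.Stm

/-!
# Project WL, job CARD: the number of monomials
-/

set_option autoImplicit false

namespace Pool.Agent.V5helper53.WL

open Pool.Agent.Helper720.Pow Pool.Agent.V5helper30.WL

/-- The vectors with entries in `[0, d - 1]` and sum `z`. -/
def RR (d n : ℕ) (z : ℤ) : Finset (Fin n → Fin d) :=
  Finset.univ.filter fun ρ => (∑ c, ((ρ c : ℕ) : ℤ)) = z

lemma card_RR (d : ℕ) : ∀ (n : ℕ) (z : ℤ), ((RR d n z).card : ℤ) = hh d n z
  | 0, z => by
    rw [RR, Finset.card_filter]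
    simp [hh, eq_comm]
  | n + 1, z => by
    rw [RR, Finset.card_filter, hh]
    push_cast
    rw [← (Fin.consEquiv (fun _ => Fin d)).sum_comp, Fintype.sum_prod_type, Finset.sum_range]
    refine Finset.sum_congr rfl fun a _ => ?_
    rw [← card_RR d n, RR, Finset.card_filter]
    push_cast
    refine Finset.sum_congr rfl fun ρ _ => ?_
    have h : (∑ c, (((Fin.consEquiv (fun _ => Fin d)) (a, ρ) c : ℕ) : ℤ)) =
        ((a : ℕ) : ℤ) + ∑ c, ((ρ c : ℕ) : ℤ) := by
      rw [Fin.sum_univ_succ]
      simp [Fin.consEquiv]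
    rw [h]
    congr 1
    exact propext ⟨fun h' => by linarith, fun h' => by linarith⟩

lemma card_fib (n d D j : ℕ) (hd : 1 ≤ d) :
    (((Finset.univ : Finset (Fin n)).finsuppAntidiag D).filter fun m => fl d m = j).card =
      (((Finset.univ : Finset (Fin n)).finsuppAntidiag j) ×ˢ RR d n ((D : ℤ) - d * j)).card := by
  have hd0 : 0 < d := hd
  refine Finset.card_bij'
    (fun m _ => (m.mapRange (fun x => x / d) (Nat.zero_div d),
      fun c => ⟨m c % d, Nat.mod_lt _ hd0⟩))
    (fun x _ => Finsupp.equivFunOnFinite.symm (fun c => d * x.1 c + (x.2 c : ℕ))) ?_ ?_ ?_ ?_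
  · intro m hm
    rw [Finset.mem_filter, Finset.mem_finsuppAntidiag] at hm
    obtain ⟨⟨h1, _⟩, h2⟩ := hm
    rw [Finset.mem_product, Finset.mem_finsuppAntidiag, RR, Finset.mem_filter]
    refine ⟨⟨?_, Finset.subset_univ _⟩, Finset.mem_univ _, ?_⟩
    · rw [← h2]
      rfl
    · have h3 : ∑ c, m c = d * (∑ c, m c / d) + ∑ c, m c % d := by
        rw [Finset.mul_sum, ← Finset.sum_add_distrib]
        exact Finset.sum_congr rfl fun c _ => (Nat.div_add_mod _ _).symm
      have h4 : (D : ℤ) = d * j + ∑ c, ((m c % d : ℕ) : ℤ) := by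
        rw [← h1, ← h2]
        exact_mod_cast h3
      show (∑ c, ((m c % d : ℕ) : ℤ)) = (D : ℤ) - d * j
      rw [h4]; ring
  · intro x hx
    rw [Finset.mem_product, Finset.mem_finsuppAntidiag, RR, Finset.mem_filter] at hx
    obtain ⟨⟨h1, _⟩, _, h2⟩ := hx
    rw [Finset.mem_filter, Finset.mem_finsuppAntidiag]
    refine ⟨⟨?_, Finset.subset_univ _⟩, ?_⟩
    · have h3 : ((∑ c, (d * x.1 c + (x.2 c : ℕ)) : ℕ) : ℤ) = D := by
        rw [Finset.sum_add_distrib, ← Finset.mul_sum]
        push_cast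
        rw [h2, ← h1]
        push_cast
        ring
      show (∑ c, (d * x.1 c + (x.2 c : ℕ)) : ℕ) = D
      exact_mod_cast h3
    · rw [← h1]
      unfold fl
      refine Finset.sum_congr rfl fun c _ => ?_
      show (d * x.1 c + (x.2 c : ℕ)) / d = x.1 c
      rw [Nat.mul_add_div hd0, Nat.div_eq_of_lt (x.2 c).2, add_zero]
  · intro m _
    ext c
    show d * (m c / d) + m c % d = m c
    exact Nat.div_add_mod _ _
  · intro x _
    refine Prod.ext ?_ ?_
    · ext c
      show (d * x.1 c + (x.2 c : ℕ)) / d = x.1 c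
      rw [Nat.mul_add_div hd0, Nat.div_eq_of_lt (x.2 c).2, add_zero]
    · funext c
      apply Fin.ext
      show (d * x.1 c + (x.2 c : ℕ)) % d = x.2 c
      rw [Nat.mul_add_mod, Nat.mod_eq_of_lt (x.2 c).2]

/-- **JOB CARD.** -/
theorem t_CARD : S_CARD := by
  intro n d k D _ hd
  have h1 : (NN n d k D).card = ∑ j ∈ Finset.range k, ((NN n d k D).filter fun m => fl d m = j).card :=
    Finset.card_eq_sum_card_fiberwise fun m hm => by
      have := (Finset.mem_filter.1 hm).2
      exact Finset.mem_coe.2 (Finset.mem_range.2 this)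
  rw [h1]
  push_cast
  refine Finset.sum_congr rfl fun j hj => ?_
  have h2 : ((NN n d k D).filter fun m => fl d m = j) =
      (((Finset.univ : Finset (Fin n)).finsuppAntidiag D).filter fun m => fl d m = j) := by
    rw [NN, Finset.filter_filter]
    refine Finset.filter_congr fun m _ => ?_
    constructor
    · exact fun h => h.2
    · exact fun h => ⟨by rw [h]; exact Finset.mem_range.1 hj, h⟩
  rw [h2, card_fib n d D j hd, Finset.card_product, Finset.card_finsuppAntidiag_nat_eq_choose,
    Finset.card_univ, Fintype.card_fin]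
  push_cast
  rw [card_RR]

end Pool.Agent.V5helper53.WL
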